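import Pool.Agent.R556.SM.Defs
import Pool.Agent.R556.SM.Potts
import Pool.Agent.R556.SM.Wreath
import Pool.Agent.R556.SM.Dual
import Pool.Agent.R556.SM.Only

/-!
# MP_a35cac_co: spin models in formally self-dual exactly triply regular schemes

Every Bose-Mesner algebra contains a Potts model. For every `a ≥ 3` there is a formally self-dual,
exactly triply regular scheme with two classes on `a²` points whose Bose-Mesner algebra contains no
other spin model. The definitions are in `Pool/Agent/R556/SM/Defs.lean`.
-/

set_option autoImplicit false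

open R556.SM

namespace Pool.Agent.Results.MP_a35cac_co.OnlyPotts

theorem result :
    -- every Bose-Mesner algebra contains a spin model (a Potts model)
    (∀ (X : Type) [Fintype X] [DecidableEq X] (d : ℕ) (S : Scheme X d),
      ∃ x y : ℂ, x • (1 : Matrix X X ℂ) + y • allOnes X ∈ S.BM ∧
        IsSpinModel (x • (1 : Matrix X X ℂ) + y • allOnes X)) ∧
    -- for some of the schemes in question there is no other one
    (∀ a : ℕ, 3 ≤ a → ∃ S : Scheme (Fin a × Fin a) 2,
      FormallySelfDual S ∧ ExactlyTriplyRegular S ∧
        ∀ W ∈ S.BM, IsSpinModel W →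
          ∃ x y : ℂ, W = x • (1 : Matrix (Fin a × Fin a) (Fin a × Fin a) ℂ) +
            y • allOnes (Fin a × Fin a)) := by
  constructor
  · intro X _ _ d S
    obtain ⟨x, y, h⟩ := potts X
    refine ⟨x, y, ?_, h⟩
    have h1 : (1 : Matrix X X ℂ) ∈ S.BM := by
      have : (1 : Matrix X X ℂ) = S.A 0 := by
        ext u v
        simp only [Scheme.A, S.diag, Matrix.one_apply]
      rw [this]
      exact Submodule.subset_span ⟨0, rfl⟩
    have h2 : allOnes X ∈ S.BM := by
      have : allOnes X = ∑ i, S.A i := by
        ext u v
        rw [Matrix.sum_apply]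
        simp [Scheme.A, allOnes]
      rw [this]
      exact Submodule.sum_mem _ fun i _ => Submodule.subset_span ⟨i, rfl⟩
    exact Submodule.add_mem _ (Submodule.smul_mem _ _ h1) (Submodule.smul_mem _ _ h2)
  · intro a ha
    refine ⟨wreath a (by omega), wreath_selfDual a _, wreath_etr a _, ?_⟩
    intro W hW hS
    rw [wreath_BM] at hW
    exact only_potts a ha W hW hS

end Pool.Agent.Results.MP_a35cac_co.OnlyPotts
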